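import Pool.Agent.LCD.Sca
import Pool.Agent.LCB.Tra

/-!
# LCD, part C: counting
-/

set_option autoImplicit false

namespace LCD

open Finset Function ArithmeticFunction Filter Topology LCB

/-- The modulus. -/
def Qn (K : ℕ) : ℕ := ∏ p ∈ pr 0 K, p

theorem Qn_pos (K : ℕ) : 0 < Qn K := prod_pos fun _ hp => (mem_pr.1 hp).2.pos

theorem pr_sub {z k K p : ℕ} (hk : k ≤ K) (hp : p ∈ pr z k) : p ∈ pr 0 K := by
  rw [mem_pr] at hp ⊢
  exact ⟨⟨hp.2.pos, hp.1.2.trans hk⟩, hp.2⟩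

theorem pr_dvd {z k K p : ℕ} (hk : k ≤ K) (hp : p ∈ pr z k) : p ∣ Qn K := dvd_prod_of_mem _ (pr_sub hk hp)

theorem dec_Uf {K z k : ℕ} (hK : 1 ≤ K) (hk : k ≤ K) (k' : ℕ) : Dec (Qn K) ((K : ℝ) ^ 2) K (Uf (pr z k) k') := by
  have h1 : Dec (Qn K) (∑ p ∈ pr z k, (K : ℝ)) K (fun n => ∑ p ∈ pr z k, Real.log p * X p k' n) := by
    refine Dec.sum hK fun p hp => ?_
    have hp' := mem_pr.1 hp
    refine Dec.base (q := p) (pr_dvd hk hp) (hp'.1.2.trans hk) (per_comp (X_per p k') (fun x => Real.log p * x)) fun m => ?_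
    have h2 : (0 : ℝ) < p := by exact_mod_cast hp'.2.pos
    have h3 := Real.log_le_sub_one_of_pos h2
    have h4 : (p : ℝ) ≤ K := by exact_mod_cast hp'.1.2.trans hk
    have h5 : 0 ≤ Real.log p := Real.log_nonneg (by exact_mod_cast hp'.2.one_lt.le)
    rw [abs_mul, abs_of_nonneg h5]
    have := X_abs_le p k' m
    nlinarith
  refine Dec.mono h1 ?_ (le_refl K)
  rw [sum_const, nsmul_eq_mul, sq]
  have : ((pr z k).card : ℝ) ≤ K := by
    have : (pr z k).card ≤ K := by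
      unfold pr
      refine (card_filter_le _ _).trans ?_
      rw [Nat.card_Ioc]
      exact (Nat.sub_le _ _).trans hk
    exact_mod_cast this
  gcongr

theorem dec_div {Q : ℕ} {a : ℝ} {R : ℕ} {φ : ℕ → ℝ} (h : Dec Q a R φ) {D : ℝ} (hD : 1 ≤ D) : Dec Q a R (fun n => φ n / D) := by
  have h1 := h.smul D⁻¹
  have e : (fun n => φ n / D) = (fun n => D⁻¹ * φ n) := by
    funext n
    rw [div_eq_inv_mul]
  rw [e]
  refine h1.mono ?_ (le_refl R)
  have h3 : |D⁻¹| ≤ 1 := by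
    rw [abs_of_nonneg (by positivity)]
    exact inv_le_one_of_one_le₀ hD
  have := h.nonneg
  nlinarith

theorem dec_F {K z k : ℕ} (hK : 1 ≤ K) (hk : k ≤ K) (hs : 1 ≤ sK k) :
    Dec (Qn K) ((4 * (K : ℝ) ^ 2) ^ 4) ((4 * K ^ 2) ^ 4) (fun n => Fm (uu z k n + dl)) := by
  have hK' : (1 : ℝ) ≤ K := by exact_mod_cast hK
  have hK2 : (1 : ℝ) ≤ (K : ℝ) ^ 2 := one_le_pow₀ hK'
  have h1 : Dec (Qn K) ((K : ℝ) ^ 2) K (uu z k) := dec_div (dec_Uf hK hk k) hs
  have hc : ∀ r : ℝ, |r| ≤ 1 → Dec (Qn K) 1 K (fun _ => r) := fun r hr => (Dec.const (Qn K) r).mono hr hK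
  have hd : Dec (Qn K) 1 K (fun _ => dl) := hc dl (by unfold dl; rw [abs_of_pos] <;> norm_num)
  have h2 : Dec (Qn K) (2 * (K : ℝ) ^ 2) K (fun n => uu z k n + dl) := (Dec.add h1 hd).mono (by linarith) (le_refl K)
  have h3 : Dec (Qn K) (4 * (K : ℝ) ^ 2) K (fun n => 1 + (-1) * (uu z k n + dl)) := by
    refine (Dec.add (hc 1 (by norm_num)) (h2.smul (-1))).mono ?_ (le_refl K)
    have h4 : |(-1 : ℝ)| = 1 := by norm_num
    rw [h4]
    linarith
  have h5 := (Dec.mul h2 (h3.pow 2)).smul ts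
  have h6 := (h2.pow 4).smul (ts / BB)
  have h7 : Dec (Qn K) 1 (K ^ 4) (fun _ => (1 : ℝ)) := (Dec.const (Qn K) 1).mono (by norm_num) (Nat.one_le_pow _ _ hK)
  have hts0 := ts_pos
  have hts : |ts| ≤ 1 := by
    rw [abs_of_pos hts0]; unfold ts BB; norm_num
  have htB : |ts / BB| ≤ 1 := by
    have hB : 0 < BB := by unfold BB; norm_num
    rw [abs_of_pos (by positivity)]
    unfold ts BB; norm_num
  have hKn : 1 ≤ K ^ 2 := Nat.one_le_pow _ _ hK
  have h5' : Dec (Qn K) (32 * (K : ℝ) ^ 6) (K ^ 4) (fun n => ts * ((uu z k n + dl) * (1 + (-1) * (uu z k n + dl)) ^ 2)) := by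
    refine h5.mono ?_ ?_
    · have e : 2 * (K : ℝ) ^ 2 * (4 * (K : ℝ) ^ 2) ^ 2 = 32 * (K : ℝ) ^ 6 := by ring
      rw [e]
      have : 0 ≤ 32 * (K : ℝ) ^ 6 := by positivity
      nlinarith
    · calc K * K ^ 2 = K ^ 3 := by ring
        _ ≤ K ^ 4 := Nat.pow_le_pow_right hK (by norm_num)
  have h6' : Dec (Qn K) (16 * (K : ℝ) ^ 8) (K ^ 4) (fun n => ts / BB * (uu z k n + dl) ^ 4) := by
    refine h6.mono ?_ (le_refl _)
    have e : (2 * (K : ℝ) ^ 2) ^ 4 = 16 * (K : ℝ) ^ 8 := by ring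
    rw [e]
    have : 0 ≤ 16 * (K : ℝ) ^ 8 := by positivity
    nlinarith
  have h8 := Dec.add (Dec.add h7 h5') h6'
  have e8 : (fun n => 1 + ts * ((uu z k n + dl) * (1 + (-1) * (uu z k n + dl)) ^ 2) + ts / BB * (uu z k n + dl) ^ 4) =
      (fun n => Fm (uu z k n + dl)) := by
    funext n
    unfold Fm
    ring
  rw [e8] at h8
  refine h8.mono ?_ ?_
  · have e : (4 * (K : ℝ) ^ 2) ^ 4 = 256 * (K : ℝ) ^ 8 := by ring
    rw [e]
    have g1 : (1 : ℝ) ≤ (K : ℝ) ^ 8 := one_le_pow₀ hK'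
    have g2 : (K : ℝ) ^ 6 ≤ (K : ℝ) ^ 8 := pow_le_pow_right₀ hK' (by norm_num)
    linarith
  · refine Nat.pow_le_pow_left ?_ 4
    nlinarith

/-- The tail of the small primes. -/
theorem tail_R {K z k A m : ℕ} (hm : 1 ≤ m) (hk : k ≤ K) (hzk : z ≤ k) (hA : 240000000 * m ≤ A) (hAk : A * z ≤ k)
    (hk2 : 2 ≤ k) (hs : 2 ≤ dl * sK k) :
    av (Qn K) (fun n => (Uf (pr 0 z) k n / (dl * sK k / 2)) ^ (2 * m)) ≤ 2 * Real.exp (-(m : ℝ)) := by
  have hdl : dl = 1 / 2000 := rfl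
  have hmr : (1 : ℝ) ≤ m := by exact_mod_cast hm
  have hkr : (2 : ℝ) ≤ k := by exact_mod_cast hk2
  have hs0 : 0 < sK k := by
    rw [hdl] at hs
    linarith
  have hlog : 0 < Real.log (k : ℝ) := Real.log_pos (by linarith)
  have hs2 : sK k ^ 2 = 2 * (k : ℝ) * Real.log k := Real.sq_sqrt (by positivity)
  have he0 := Real.exp_pos 1
  set lam := 4 * Real.exp 1 * m / (dl * sK k) with hlam
  have hds : 0 < dl * sK k := by linarith
  have hlam0 : 0 < lam := by rw [hlam]; positivity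
  have hm1 := Uf_mom (Q := Qn K) (S := pr 0 z) (Qn_pos K) (fun p hp => (mem_pr.1 hp).2) (fun p hp => pr_dvd (hzk.trans hk) hp) k
    (lam := lam) (D := dl * sK k / 2) (V := m) (R := 2 * m) hlam0 (even_two_mul m) (by omega) ?_ ?_
  · refine hm1.trans (le_of_eq ?_)
    congr 2
    push_cast
    ring
  · rw [hlam]
    push_cast
    have : 4 * Real.exp 1 * m / (dl * sK k) * (dl * sK k / 2) = 2 * Real.exp 1 * m := by field_simp; norm_num
    rw [this]
    linarith
  · rcases Nat.eq_zero_or_pos z with hz0 | hz0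
    · have : vS (pr 0 z) = 0 := by
        rw [hz0]
        unfold vS pr
        simp
      rw [this, mul_zero, zero_div]
      linarith
    have hv : vS (pr 0 z) ≤ 2 * (z : ℝ) * Real.log k := vS_pr_le hzk hz0
    have hAz : (240000000 : ℝ) * m * z ≤ k := by
      have : 240000000 * m * z ≤ k := (Nat.mul_le_mul_right z hA).trans hAk
      exact_mod_cast this
    have he : Real.exp 1 ^ 2 ≤ 7.5 := by
      have := Real.exp_one_lt_d9
      nlinarith
    rw [hlam, div_pow, mul_pow dl, hs2, div_mul_eq_mul_div, div_div, div_le_iff₀ (by rw [hdl]; positivity)]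
    rw [hdl]
    calc (4 * Real.exp 1 * (m : ℝ)) ^ 2 * vS (pr 0 z) ≤ (4 * Real.exp 1 * (m : ℝ)) ^ 2 * (2 * (z : ℝ) * Real.log k) := by gcongr
      _ = Real.exp 1 ^ 2 * (32 * (m : ℝ) ^ 2 * z * Real.log k) := by ring
      _ ≤ 7.5 * (32 * (m : ℝ) ^ 2 * z * Real.log k) := by gcongr
      _ = ((240000000 : ℝ) * m * z) * (m * Real.log k * (1 / 1000000)) := by ring
      _ ≤ k * (m * Real.log k * (1 / 1000000)) := by gcongr
      _ = _ := by ring

open scoped Classical in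
/-- The length `k` is not reversed. -/
def In (k n : ℕ) : Prop := (Icc (n - k + 1) n).lcm id ≤ (Icc (n + 1) (n + k)).lcm id

open scoped Classical in
theorem count_up : ∃ k0 : ℕ, ∀ M A m w N : ℕ, 1 ≤ m → k0 ≤ M → A ≤ M → 240000000 * m ≤ A →
    2 * (M * A ^ m) ^ 2 + M * A ^ m ≤ w →
    2 * ((m : ℝ) + 1) * (((4 * ((M * A ^ m : ℕ) : ℝ) ^ 2) ^ 4) ^ m) ^ 2 * Real.exp m ≤ N →
    (((Ico w (w + N)).filter (fun n => ∀ i < m, In (M * A ^ (i + 1)) n)).card : ℝ) ≤
      N * (Real.exp (-(ts / 400 * m)) + (2 * m + 1) * Real.exp (-(m : ℝ))) := by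
  obtain ⟨k0, hk0, hsc⟩ := scale
  refine ⟨k0, fun M A m w N hm hM hAM hA hw hN => ?_⟩
  set K := M * A ^ m with hK
  have hA1 : 1 ≤ A := by omega
  have hM2 : 2 ≤ M := hk0.trans hM
  have hK1 : 1 ≤ K := Nat.mul_pos (by omega) (Nat.pow_pos (by omega))
  have hKr : (1 : ℝ) ≤ K := by exact_mod_cast hK1
  set z : ℕ → ℕ := fun i => M * A ^ i with hz
  set k : ℕ → ℕ := fun i => M * A ^ (i + 1) with hk
  have hkz : ∀ i, k i = A * z i := fun i => by simp only [hk, hz]; rw [pow_succ]; ring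
  have hzM : ∀ i, M ≤ z i := fun i => Nat.le_mul_of_pos_right _ (Nat.pow_pos (by omega))
  have hzk : ∀ i, z i ≤ k i := fun i => by rw [hkz]; exact Nat.le_mul_of_pos_left _ (by omega)
  have hkK : ∀ i ∈ range m, k i ≤ K := by
    intro i hi
    rw [mem_range] at hi
    exact Nat.mul_le_mul_left _ (Nat.pow_le_pow_right hA1 (by omega))
  have hscale : ∀ i ∈ range m, _ := fun i hi => hsc (z i) (k i) (hM.trans ((hzM i).trans (hzk i)))
    (by rw [hkz]; exact Nat.mul_le_mul_right _ (by omega))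
    (by rw [hkz, sq]; exact Nat.mul_le_mul_right _ (hAM.trans (hzM i)))
  set Q := Qn K with hQ
  have hQ0 : 0 < Q := Qn_pos K
  have hN0 : (0 : ℝ) < N := by
    refine lt_of_lt_of_le ?_ hN
    have : (0 : ℝ) < 4 * (K : ℝ) ^ 2 := by positivity
    positivity
  have hN1 : 0 < N := by exact_mod_cast hN0
  set F : ℕ → ℕ → ℝ := fun i n => Fm (uu (z i) (k i) n + dl) with hF
  set V : ℕ → ℕ → ℝ := fun i n => (Uf (pr 0 (z i)) (k i) n / (dl * sK (k i) / 2)) ^ (2 * m) with hV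
  have hF0 : ∀ i n, 0 ≤ F i n := fun i n => Fm_nonneg _
  have hV0 : ∀ i n, 0 ≤ V i n := fun i n => (even_two_mul m).pow_nonneg _
  have hsK : ∀ i ∈ range m, 1 ≤ sK (k i) := by
    intro i hi
    have h1 := (hscale i hi).1
    have hdl : dl = 1 / 2000 := rfl
    rw [hdl] at h1
    linarith
  -- means
  have mF : ∀ i ∈ range m, av Q (F i) ≤ 1 - ts / 400 := fun i hi =>
    (hscale i hi).2.1 Q hQ0 (fun p hp => pr_dvd (hkK i hi) hp)
  have mV : ∀ i ∈ range m, av Q (V i) ≤ 2 * Real.exp (-(m : ℝ)) := fun i hi =>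
    tail_R hm (hkK i hi) (hzk i) hA (by rw [hkz]) (hM2.trans ((hzM i).trans (hzk i))) (hscale i hi).1
  have mP : av Q (fun n => ∏ i ∈ range m, F i n) ≤ Real.exp (-(ts / 400 * m)) := by
    have h1 : av Q (fun n => ∏ i ∈ range m, F i n) = ∏ i ∈ range m, av Q (F i) := by
      refine av_prod' (q := fun i => ∏ p ∈ pr (z i) (k i), p) hQ0 (fun i _ => ?_) (fun i hi => ?_) (fun i _ j _ hij => ?_)
      · have h2 : Periodic (fun n => Uf (pr (z i) (k i)) (k i) n) (∏ p ∈ pr (z i) (k i), p) :=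
          per_sum fun p hp => per_of_dvd (per_comp (X_per p (k i)) (fun x => Real.log p * x)) (dvd_prod_of_mem _ hp)
        have h3 : Periodic (uu (z i) (k i)) (∏ p ∈ pr (z i) (k i), p) := per_comp h2 (fun x => x / sK (k i))
        exact per_comp h3 (fun x => Fm (x + dl))
      · refine Finset.prod_dvd_of_isRelPrime ?_ fun p hp => pr_dvd (hkK i hi) hp
        intro p hp q hq hpq
        exact Nat.coprime_iff_isRelPrime.1 ((Nat.coprime_primes (mem_pr.1 hp).2 (mem_pr.1 hq).2).2 hpq)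
      · refine Nat.Coprime.prod_left fun p hp => Nat.Coprime.prod_right fun q hq => ?_
        have hp' := mem_pr.1 hp
        have hq' := mem_pr.1 hq
        refine (Nat.coprime_primes hp'.2 hq'.2).2 ?_
        rintro rfl
        rcases lt_or_gt_of_ne hij with h | h
        · have h3 : k i ≤ z j := Nat.mul_le_mul_left _ (Nat.pow_le_pow_right hA1 h)
          omega
        · have h3 : k j ≤ z i := Nat.mul_le_mul_left _ (Nat.pow_le_pow_right hA1 h)
          omega
    rw [h1]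
    calc ∏ i ∈ range m, av Q (F i) ≤ ∏ _i ∈ range m, Real.exp (-(ts / 400)) := by
          refine prod_le_prod (fun i _ => av_nonneg Q (hF0 i)) fun i hi => (mF i hi).trans ?_
          have := Real.add_one_le_exp (-(ts / 400))
          linarith
      _ = Real.exp (-(ts / 400 * m)) := by
          rw [prod_const, card_range, ← Real.exp_nat_mul]
          congr 1
          ring
  -- transfer
  set Mx : ℝ := ((4 * (K : ℝ) ^ 2) ^ 4) ^ m with hMx
  set Mn : ℕ := ((4 * K ^ 2) ^ 4) ^ m with hMn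
  have hMM : (Mn : ℝ) = Mx := by rw [hMn, hMx]; push_cast; rfl
  have dP : Dec Q Mx Mn (fun n => ∏ i ∈ range m, F i n) := by
    have h1 := Dec.prod (s := range m) (φ := F) (fun i hi => dec_F hK1 (hkK i hi) (hsK i hi))
    rw [card_range] at h1
    exact h1
  have dV : ∀ i ∈ range m, Dec Q Mx Mn (V i) := by
    intro i hi
    have h1 : 1 ≤ dl * sK (k i) / 2 := by
      have := (hscale i hi).1
      linarith
    have h2 := (dec_div (dec_Uf (z := 0) hK1 ((hzk i).trans (hkK i hi)) (k i)) h1).pow (2 * m)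
    refine h2.mono ?_ ?_
    · rw [hMx, ← pow_mul, ← pow_mul]
      have h3 : (K : ℝ) ^ (2 * (2 * m)) ≤ (4 * (K : ℝ) ^ 2) ^ (2 * m) := by
        rw [pow_mul]
        refine pow_le_pow_left₀ (by positivity) ?_ _
        have : 0 ≤ (K : ℝ) ^ 2 := by positivity
        linarith
      refine h3.trans (pow_le_pow_right₀ ?_ (by omega))
      have : 1 ≤ (K : ℝ) ^ 2 := one_le_pow₀ hKr
      linarith
    · rw [hMn, ← pow_mul]
      have h3 : K ^ (2 * m) ≤ (4 * K ^ 2) ^ (2 * m) := by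
        refine Nat.pow_le_pow_left ?_ _
        nlinarith
      refine h3.trans (Nat.pow_le_pow_right ?_ (by omega))
      have : 1 ≤ K ^ 2 := Nat.one_le_pow _ _ hK1
      omega
  have hMx0 : 0 ≤ Mx := by rw [hMx]; positivity
  set ε := 2 * Mx * Mn / N with hε
  have hε1 : ((m : ℝ) + 1) * ε ≤ Real.exp (-(m : ℝ)) := by
    rw [hε, hMM, ← mul_div_assoc, div_le_iff₀ hN0]
    have h1 : 2 * ((m : ℝ) + 1) * Mx ^ 2 * Real.exp m ≤ N := hN
    have h2 : Real.exp (-(m : ℝ)) * (2 * ((m : ℝ) + 1) * Mx ^ 2 * Real.exp m) = 2 * ((m : ℝ) + 1) * Mx ^ 2 := by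
      have : Real.exp (-(m : ℝ)) * Real.exp m = 1 := by rw [← Real.exp_add, neg_add_cancel, Real.exp_zero]
      calc Real.exp (-(m : ℝ)) * (2 * ((m : ℝ) + 1) * Mx ^ 2 * Real.exp m) =
          (Real.exp (-(m : ℝ)) * Real.exp m) * (2 * ((m : ℝ) + 1) * Mx ^ 2) := by ring
        _ = _ := by rw [this, one_mul]
    have h3 := mul_le_mul_of_nonneg_left h1 (Real.exp_pos (-(m : ℝ))).le
    rw [h2] at h3
    calc ((m : ℝ) + 1) * (2 * Mx * Mx) = 2 * ((m : ℝ) + 1) * Mx ^ 2 := by ring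
      _ ≤ _ := h3
  have sP := (abs_le.1 (dP.sample hQ0 w hN1)).2
  have sV : ∀ i ∈ range m, (∑ j ∈ range N, V i (w + j)) / N ≤ 2 * Real.exp (-(m : ℝ)) + ε := by
    intro i hi
    have h1 := (abs_le.1 ((dV i hi).sample hQ0 w hN1)).2
    have h2 := mV i hi
    linarith
  -- pointwise bound
  set gd : ℕ → ℝ := fun n => if ∀ i < m, In (M * A ^ (i + 1)) n then 1 else 0 with hgd
  have hpt : ∀ n, w ≤ n → gd n ≤ ∏ i ∈ range m, F i n + ∑ i ∈ range m, V i n := by
    intro n hn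
    have hP0 : 0 ≤ ∏ i ∈ range m, F i n := prod_nonneg fun i _ => hF0 i n
    have hS0 : 0 ≤ ∑ i ∈ range m, V i n := sum_nonneg fun i _ => hV0 i n
    by_cases hall : ∀ i < m, In (M * A ^ (i + 1)) n
    · have : gd n = 1 := if_pos hall
      rw [this]
      by_cases hR : ∀ i ∈ range m, |Uf (pr 0 (z i)) (k i) n| ≤ dl * sK (k i) / 2
      · have h1 : 1 ≤ ∏ i ∈ range m, F i n := by
          calc (1 : ℝ) = ∏ _i ∈ range m, 1 := by rw [prod_const_one]
            _ ≤ _ := by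
              refine prod_le_prod (fun _ _ => zero_le_one) fun i hi => ?_
              refine Fm_ge_one ((hscale i hi).2.2 n ?_ (hall i (mem_range.1 hi)) (hR i hi))
              have h2 := hkK i hi
              have h3 : (k i) ^ 2 ≤ K ^ 2 := Nat.pow_le_pow_left h2 2
              omega
        linarith
      · push Not at hR
        obtain ⟨i, hi, hRi⟩ := hR
        have h1 : 1 ≤ V i n := by
          have hd0 : 0 < dl * sK (k i) / 2 := by
            have := (hscale i hi).1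
            linarith
          have h2 : 1 ≤ |Uf (pr 0 (z i)) (k i) n / (dl * sK (k i) / 2)| := by
            rw [abs_div, abs_of_pos hd0, one_le_div hd0]
            exact hRi.le
          have h3 := one_le_pow₀ h2 (n := 2 * m)
          rw [(even_two_mul m).pow_abs] at h3
          exact h3
        have h2 := single_le_sum (fun j _ => hV0 j n) hi
        linarith
    · have : gd n = 0 := if_neg hall
      rw [this]
      linarith
  have hcard : (((Ico w (w + N)).filter (fun n => ∀ i < m, In (M * A ^ (i + 1)) n)).card : ℝ) = ∑ j ∈ range N, gd (w + j) := by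
    rw [card_filter]
    push_cast
    rw [sum_Ico_eq_sum_range, Nat.add_sub_cancel_left]
  rw [hcard]
  have h1 : ∑ j ∈ range N, gd (w + j) ≤ ∑ j ∈ range N, (∏ i ∈ range m, F i (w + j) + ∑ i ∈ range m, V i (w + j)) :=
    sum_le_sum fun j _ => hpt (w + j) (Nat.le_add_right _ _)
  refine h1.trans ?_
  rw [sum_add_distrib, sum_comm]
  have h2 : ∑ j ∈ range N, ∏ i ∈ range m, F i (w + j) ≤ N * (Real.exp (-(ts / 400 * m)) + ε) := by
    rw [mul_comm, ← div_le_iff₀ hN0]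
    linarith
  have h3 : ∑ i ∈ range m, ∑ j ∈ range N, V i (w + j) ≤ N * (m * (2 * Real.exp (-(m : ℝ)) + ε)) := by
    calc ∑ i ∈ range m, ∑ j ∈ range N, V i (w + j) ≤ ∑ i ∈ range m, N * (2 * Real.exp (-(m : ℝ)) + ε) := by
          refine sum_le_sum fun i hi => ?_
          rw [mul_comm, ← div_le_iff₀ hN0]
          exact sV i hi
      _ = _ := by rw [sum_const, card_range, nsmul_eq_mul]; ring
  have h4 : N * (((m : ℝ) + 1) * ε) ≤ N * Real.exp (-(m : ℝ)) := by gcongr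
  calc ∑ j ∈ range N, ∏ i ∈ range m, F i (w + j) + ∑ i ∈ range m, ∑ j ∈ range N, V i (w + j)
      ≤ N * (Real.exp (-(ts / 400 * m)) + ε) + N * (m * (2 * Real.exp (-(m : ℝ)) + ε)) := add_le_add h2 h3
    _ = N * Real.exp (-(ts / 400 * m)) + N * (2 * m * Real.exp (-(m : ℝ))) + N * (((m : ℝ) + 1) * ε) := by ring
    _ ≤ N * Real.exp (-(ts / 400 * m)) + N * (2 * m * Real.exp (-(m : ℝ))) + N * Real.exp (-(m : ℝ)) := by linarith
    _ = _ := by ring

end LCD
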