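import Pool.Agent.LCD.Cnt

/-!
# LCD, part D: choice of the parameters
-/

set_option autoImplicit false

namespace LCD

open Finset Filter Topology LCB

/-- The integers up to `x` without a reversed length between `x ^ (c / m)` and `x ^ (3 c / m)`. -/
def NR (x c : ℝ) (m : ℕ) : Set ℕ := {n : ℕ | (n : ℝ) ≤ x ∧ ∀ k : ℕ, x ^ (c / m) ≤ k → (k : ℝ) ≤ x ^ (3 * c / m) →
  k < n → In k n}

/-- Absolute constant: the number of scales is `a * m`. -/
theorem a1_ts : ∃ a : ℕ, 100 ≤ a ∧ ts / 400 * (a : ℝ) = 4 := by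
  refine ⟨160000 * 32000 ^ 3, by norm_num, ?_⟩
  push_cast
  unfold ts BB
  norm_num

theorem exp_parts {m a1 : ℕ} (hm : 1 ≤ m) (ha1 : 100 ≤ a1) (hts : ts / 400 * (a1 : ℝ) = 4) :
    Real.exp (-(ts / 400 * ((a1 * m : ℕ) : ℝ))) + (2 * ((a1 * m : ℕ) : ℝ) + 1) * Real.exp (-((a1 * m : ℕ) : ℝ)) ≤
      Real.exp (-(m : ℝ)) * (1 / 4) := by
  have hm1 : (1 : ℝ) ≤ m := by exact_mod_cast hm
  have h1 : ts / 400 * ((a1 * m : ℕ) : ℝ) = 4 * m := by
    push_cast
    rw [← mul_assoc, hts]
  rw [h1]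
  have ha : (100 : ℝ) ≤ a1 := by exact_mod_cast ha1
  set μ : ℝ := ((a1 * m : ℕ) : ℝ) with hμ
  have hμm : 100 * (m : ℝ) ≤ μ := by
    rw [hμ]
    push_cast
    gcongr
  have he3 : Real.exp (-3) ≤ 1 / 8 := by
    have h7 : Real.exp (-3) = Real.exp (-1) ^ 3 := by rw [← Real.exp_nat_mul]; norm_num
    have h8 : Real.exp (-1) ≤ 1 / 2 := by
      have := Real.exp_neg_one_lt_d9
      linarith
    rw [h7]
    calc Real.exp (-1) ^ 3 ≤ (1 / 2) ^ 3 := by
          have := Real.exp_pos (-1)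
          gcongr
      _ = 1 / 8 := by norm_num
  have h2 : Real.exp (-(4 * (m : ℝ))) ≤ Real.exp (-(m : ℝ)) * (1 / 8) := by
    have : Real.exp (-(4 * (m : ℝ))) ≤ Real.exp (-(m : ℝ)) * Real.exp (-3) := by
      rw [← Real.exp_add]
      exact Real.exp_le_exp.2 (by linarith)
    refine this.trans ?_
    gcongr
  have h3 : 2 * μ + 1 ≤ Real.exp (μ / 2 + 6) := by
    have h4 := Real.add_one_le_exp (μ / 2)
    have h5 : (6 : ℝ) ≤ Real.exp 6 := by
      have := Real.add_one_le_exp (6 : ℝ)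
      linarith
    rw [Real.exp_add]
    have h6 : 0 ≤ μ := by linarith
    nlinarith [Real.exp_pos (μ / 2)]
  have h4 : (2 * μ + 1) * Real.exp (-μ) ≤ Real.exp (-(m : ℝ)) * (1 / 8) := by
    calc (2 * μ + 1) * Real.exp (-μ) ≤ Real.exp (μ / 2 + 6) * Real.exp (-μ) := by gcongr
      _ = Real.exp (6 - μ / 2) := by
          rw [← Real.exp_add]
          congr 1
          ring
      _ ≤ Real.exp (-(m : ℝ) + -3) := Real.exp_le_exp.2 (by linarith)
      _ = Real.exp (-(m : ℝ)) * Real.exp (-3) := by rw [Real.exp_add]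
      _ ≤ _ := by gcongr
  linarith

theorem upper_bound : ∃ c x₀ : ℝ, 0 < c ∧ ∀ x : ℝ, x₀ ≤ x → ∀ m : ℕ, 1 ≤ m →
    (m : ℝ) ≤ c * √(Real.log x / Real.log (Real.log x)) →
      ((NR x c m).ncard : ℝ) ≤ x * Real.exp (-(m : ℝ)) := by
  classical
  obtain ⟨k0, hk0⟩ := count_up
  obtain ⟨a1, ha100, hats⟩ := a1_ts
  have ha : (1 : ℝ) ≤ a1 := by
    have : 1 ≤ a1 := by omega
    exact_mod_cast this
  set B : ℕ := 240000000 * a1 with hB
  have hB1 : 1 ≤ B := by omega
  have hBr : (1 : ℝ) ≤ B := by exact_mod_cast hB1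
  set c : ℝ := 1 / (200 * a1) with hc
  have hc0 : 0 < c := by rw [hc]; positivity
  have hca : a1 * c = 1 / 200 := by
    rw [hc]
    field_simp
  have hc1 : c ≤ 1 / 200 := by
    rw [← hca]
    exact le_mul_of_one_le_left hc0.le ha
  refine ⟨c, Real.exp (max 400 (max ((B : ℝ) ^ 2) (((k0 : ℝ)) ^ 2))), hc0, fun x hx m hm hmx => ?_⟩
  have hx0 : 0 < x := (Real.exp_pos _).trans_le hx
  set X := Real.log x with hX
  have hXge : max 400 (max ((B : ℝ) ^ 2) (((k0 : ℝ)) ^ 2)) ≤ X := by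
    rw [hX, Real.le_log_iff_exp_le hx0]
    exact hx
  have hX9 : 400 ≤ X := (le_max_left _ _).trans hXge
  have hXB : (B : ℝ) ^ 2 ≤ X := (le_max_left _ _).trans ((le_max_right _ _).trans hXge)
  have hXk : (k0 : ℝ) ^ 2 ≤ X := (le_max_right _ _).trans ((le_max_right _ _).trans hXge)
  have hxX : x = Real.exp X := (Real.exp_log hx0).symm
  set Y := Real.log X with hY
  have hY1 : 1 ≤ Y := by
    rw [hY, Real.le_log_iff_exp_le (by linarith)]
    have := Real.exp_one_lt_d9
    linarith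
  have hm1 : (1 : ℝ) ≤ m := by exact_mod_cast hm
  have hm0 : (0 : ℝ) < m := by linarith
  set R := √X with hR
  have hR2 : R * R = X := Real.mul_self_sqrt (by linarith)
  have hR20 : 20 ≤ R := Real.le_sqrt_of_sq_le (by linarith)
  have hRX : R ≤ 1 / 20 * X := by
    rw [← hR2]
    calc R = 1 / 20 * (R * 20) := by ring
      _ ≤ 1 / 20 * (R * R) := by gcongr
  have hRB : (B : ℝ) ≤ R := Real.le_sqrt_of_sq_le hXB
  have hRk : (k0 : ℝ) ≤ R := Real.le_sqrt_of_sq_le hXk
  have hAX : √(X / Y) ≤ R := Real.sqrt_le_sqrt (div_le_self (by linarith) hY1)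
  have hmR : (m : ℝ) ≤ c * R := hmx.trans (by gcongr)
  have hmY : (m : ℝ) ^ 2 * Y ≤ c ^ 2 * X := by
    have h1 : √(X / Y) ^ 2 = X / Y := Real.sq_sqrt (by positivity)
    have h2 : (m : ℝ) ^ 2 ≤ c ^ 2 * (X / Y) := by
      rw [← h1, ← mul_pow]
      exact pow_le_pow_left₀ hm0.le hmx 2
    calc (m : ℝ) ^ 2 * Y ≤ c ^ 2 * (X / Y) * Y := by gcongr
      _ = c ^ 2 * X := by field_simp
  -- the exponent `cX/m`
  set E := c * X / m with hE
  have hER : R ≤ E := by
    rw [hE, le_div_iff₀ hm0]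
    calc R * m ≤ R * (c * R) := by gcongr
      _ = c * (R * R) := by ring
      _ = c * X := by rw [hR2]
  have hEm : E * m = c * X := by rw [hE]; field_simp
  have hp1 : x ^ (c / m) = Real.exp E := by
    rw [Real.rpow_def_of_pos hx0]
    congr 1
    rw [hE, ← hX]
    ring
  have hp3 : x ^ (3 * c / m) = Real.exp (3 * E) := by
    rw [Real.rpow_def_of_pos hx0]
    congr 1
    rw [hE, ← hX]
    ring
  have hRexp : R ≤ Real.exp R := by
    have := Real.add_one_le_exp R
    linarith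
  -- the parameters
  set M := ⌈Real.exp E⌉₊ with hM
  have hM1 : Real.exp E ≤ M := Nat.le_ceil _
  have hM2 : (M : ℝ) ≤ Real.exp (E + 1) := by
    have h1 : (M : ℝ) < Real.exp E + 1 := Nat.ceil_lt_add_one (Real.exp_pos _).le
    have h2 : 1 ≤ Real.exp E := Real.one_le_exp (by linarith)
    have h3 : 2 ≤ Real.exp 1 := by
      have := Real.add_one_le_exp (1 : ℝ)
      linarith
    rw [Real.exp_add]
    calc (M : ℝ) ≤ Real.exp E + 1 := h1.le
      _ ≤ Real.exp E * 2 := by linarith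
      _ ≤ Real.exp E * Real.exp 1 := by gcongr
  have hRM : Real.exp R ≤ M := (Real.exp_le_exp.2 hER).trans hM1
  have hk0M : k0 ≤ M := by
    have : (k0 : ℝ) ≤ M := hRk.trans (hRexp.trans hRM)
    exact_mod_cast this
  set A := B * m with hA
  have hlogA : Real.log (A : ℝ) ≤ Y := by
    have h1 : (A : ℝ) ≤ X := by
      rw [hA]
      push_cast
      calc (B : ℝ) * m ≤ R * (c * R) := by gcongr
        _ = c * (R * R) := by ring
        _ = c * X := by rw [hR2]
        _ ≤ 1 * X := by gcongr; linarith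
        _ = X := one_mul X
    have h2 : (0 : ℝ) < A := by
      rw [hA]
      push_cast
      positivity
    exact Real.log_le_log h2 h1
  have hA0 : (0 : ℝ) < A := by
    rw [hA]
    push_cast
    positivity
  have hAM : A ≤ M := by
    have h1 : (A : ℝ) ≤ Real.exp R := by
      have h2 : (A : ℝ) ≤ X := by
        have h3 := (Real.log_le_log_iff hA0 (by linarith)).1 hlogA
        exact h3
      have h4 : X ≤ Real.exp R := by
        have h5 := Real.quadratic_le_exp_of_nonneg (show 0 ≤ R by linarith)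
        have h6 := Real.add_one_le_exp (R / 4)
        have h7 : Real.exp R = Real.exp (R / 4) ^ 4 := by
          rw [← Real.exp_nat_mul]
          congr 1
          push_cast
          ring
        rw [h7, ← hR2]
        calc R * R = 16 * (R / 4) ^ 2 := by ring
          _ ≤ (R / 4 + 1) ^ 2 * (R / 4 + 1) ^ 2 := by
              have h8 : (16 : ℝ) ≤ (R / 4 + 1) ^ 2 := by
                calc (16 : ℝ) ≤ (20 / 4 + 1) ^ 2 := by norm_num
                  _ ≤ (R / 4 + 1) ^ 2 := by gcongr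
              have h9 : (R / 4) ^ 2 ≤ (R / 4 + 1) ^ 2 := by
                refine pow_le_pow_left₀ (by positivity) ?_ 2
                linarith
              exact mul_le_mul h8 h9 (by positivity) (by positivity)
          _ = (R / 4 + 1) ^ 4 := by ring
          _ ≤ Real.exp (R / 4) ^ 4 := by gcongr
      linarith
    have h2 : (A : ℝ) ≤ M := h1.trans hRM
    exact_mod_cast h2
  set μ := a1 * m with hμ
  have hμ1 : 1 ≤ μ := by
    have : 1 ≤ a1 := by exact_mod_cast ha
    exact Nat.mul_pos this hm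
  have hAμ : 240000000 * μ ≤ A := by
    rw [hμ, hA, hB, mul_assoc]
  have hμr : (μ : ℝ) = a1 * m := by
    rw [hμ]
    push_cast
    ring
  set K := M * A ^ μ with hK
  have hM0 : (0 : ℝ) < M := (Real.exp_pos _).trans_le hM1
  have hKexp : (K : ℝ) ≤ Real.exp (3 * E) := by
    have h1 : (A : ℝ) ^ μ ≤ Real.exp (μ * Y) := by
      have h2 : (A : ℝ) = Real.exp (Real.log A) := (Real.exp_log hA0).symm
      rw [h2, ← Real.exp_nat_mul]
      exact Real.exp_le_exp.2 (by gcongr)
    have h2 : (μ : ℝ) * Y ≤ E - 1 := by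
      have h3 : ((μ : ℝ) * Y + 1) * m ≤ E * m := by
        rw [hEm, hμr]
        have h4 : (a1 : ℝ) * m * Y * m = a1 * (m ^ 2 * Y) := by ring
        have h5 : (a1 : ℝ) * (m ^ 2 * Y) ≤ a1 * (c ^ 2 * X) := by gcongr
        have h6 : (a1 : ℝ) * (c ^ 2 * X) = 1 / 200 * (c * X) := by
          rw [← hca]
          ring
        have h7 : (m : ℝ) ≤ 1 / 20 * (c * X) := by
          refine hmR.trans ?_
          calc c * R ≤ c * (1 / 20 * X) := by gcongr
            _ = _ := by ring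
        have h8 : 0 ≤ c * X := by positivity
        calc ((a1 : ℝ) * m * Y + 1) * m = (a1 : ℝ) * m * Y * m + m := by ring
          _ ≤ 1 / 200 * (c * X) + 1 / 20 * (c * X) := by
              rw [h4]
              linarith
          _ ≤ c * X := by linarith
      have := le_of_mul_le_mul_right h3 hm0
      linarith
    rw [hK]
    push_cast
    calc (M : ℝ) * (A : ℝ) ^ μ ≤ Real.exp (E + 1) * Real.exp (μ * Y) := by gcongr
      _ ≤ Real.exp (E + 1) * Real.exp (E - 1) := by gcongr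
      _ = Real.exp (2 * E) := by
          rw [← Real.exp_add]
          congr 1
          ring
      _ ≤ Real.exp (3 * E) := Real.exp_le_exp.2 (by linarith)
  have hK1 : 1 ≤ K := by
    refine Nat.mul_pos ?_ (Nat.pow_pos ?_)
    · exact_mod_cast hM0
    · exact_mod_cast hA0
  have hKr : (1 : ℝ) ≤ K := by exact_mod_cast hK1
  have hEcX : E ≤ c * X := by
    rw [hE]
    exact div_le_self (by positivity) hm1
  -- `w`
  set w := 2 * K ^ 2 + K with hw
  have hwx : (w : ℝ) ≤ Real.exp (X / 2) := by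
    have h1 : (w : ℝ) ≤ 3 * (K : ℝ) ^ 2 := by
      rw [hw]
      push_cast
      have h0 : (K : ℝ) ≤ (K : ℝ) ^ 2 := le_self_pow₀ hKr two_ne_zero
      linarith
    have h2 : (K : ℝ) ^ 2 ≤ Real.exp (3 * E) ^ 2 := by gcongr
    have h3 : Real.exp (3 * E) ^ 2 = Real.exp (6 * E) := by
      rw [← Real.exp_nat_mul]
      congr 1
      push_cast
      ring
    have h4 : (3 : ℝ) ≤ Real.exp 2 := by
      have := Real.add_one_le_exp (2 : ℝ)
      linarith
    calc (w : ℝ) ≤ 3 * (K : ℝ) ^ 2 := h1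
      _ ≤ Real.exp 2 * Real.exp (6 * E) := by
          rw [← h3]
          gcongr
      _ = Real.exp (2 + 6 * E) := by rw [← Real.exp_add]
      _ ≤ _ := by
          refine Real.exp_le_exp.2 ?_
          have : c * X ≤ 1 / 200 * X := by gcongr
          linarith
  set N := ⌊x⌋₊ + 1 with hN
  have hNx : x ≤ N := by
    rw [hN]
    push_cast
    exact (Nat.lt_floor_add_one x).le
  have hx1 : 1 ≤ x := by
    rw [hxX]
    exact Real.one_le_exp (by linarith)
  have hN2 : (N : ℝ) ≤ 2 * x := by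
    rw [hN]
    push_cast
    have := Nat.floor_le hx0.le
    linarith
  have hcX : c * R ≤ 1 / 200 * R := by gcongr
  have hcond : 2 * ((μ : ℝ) + 1) * (((4 * ((M * A ^ μ : ℕ) : ℝ) ^ 2) ^ 4) ^ μ) ^ 2 * Real.exp μ ≤ N := by
    refine le_trans ?_ hNx
    rw [← hK]
    have h1 : 2 * ((μ : ℝ) + 1) ≤ Real.exp (μ + 1) := by
      rw [Real.exp_add]
      have h2 := Real.add_one_le_exp (μ : ℝ)
      have h3 := Real.add_one_le_exp (1 : ℝ)
      have h4 : (0 : ℝ) ≤ μ := Nat.cast_nonneg _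
      calc 2 * ((μ : ℝ) + 1) = (μ + 1) * 2 := by ring
        _ ≤ Real.exp μ * Real.exp 1 := mul_le_mul h2 (by linarith) (by norm_num) (Real.exp_pos _).le
    have h2 : 4 * (K : ℝ) ^ 2 ≤ Real.exp (4 + 6 * E) := by
      have h3 : Real.exp (3 * E) ^ 2 = Real.exp (6 * E) := by
        rw [← Real.exp_nat_mul]
        congr 1
        push_cast
        ring
      have h4 : (4 : ℝ) ≤ Real.exp 4 := by
        have := Real.add_one_le_exp (4 : ℝ)
        linarith
      rw [Real.exp_add, ← h3]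
      gcongr
    have h3 : (((4 * (K : ℝ) ^ 2) ^ 4) ^ μ) ^ 2 ≤ Real.exp (8 * μ * (4 + 6 * E)) := by
      calc (((4 * (K : ℝ) ^ 2) ^ 4) ^ μ) ^ 2 ≤ (((Real.exp (4 + 6 * E)) ^ 4) ^ μ) ^ 2 := by gcongr
        _ = _ := by
            rw [← Real.exp_nat_mul, ← Real.exp_nat_mul, ← Real.exp_nat_mul]
            congr 1
            push_cast
            ring
    have h5 : (μ : ℝ) * E = X / 200 := by
      rw [hμr, mul_assoc, mul_comm (m : ℝ) E, hEm, ← mul_assoc, hca]
      ring
    have h6 : (μ : ℝ) ≤ X / 4000 := by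
      rw [hμr]
      have h7 : (a1 : ℝ) * m ≤ a1 * (c * R) := by gcongr
      have h8 : (a1 : ℝ) * (c * R) = 1 / 200 * R := by rw [← mul_assoc, hca]
      linarith
    calc 2 * ((μ : ℝ) + 1) * (((4 * (K : ℝ) ^ 2) ^ 4) ^ μ) ^ 2 * Real.exp μ
        ≤ Real.exp (μ + 1) * Real.exp (8 * μ * (4 + 6 * E)) * Real.exp μ := by gcongr
      _ = Real.exp (34 * μ + 1 + 48 * (μ * E)) := by
          rw [← Real.exp_add, ← Real.exp_add]
          congr 1
          ring
      _ ≤ Real.exp X := by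
          rw [h5]
          exact Real.exp_le_exp.2 (by linarith)
      _ = x := hxX.symm
  have hfin := hk0 M A μ w N hμ1 hk0M hAM hAμ le_rfl hcond
  -- the inclusion
  have hsub : NR x c m ⊆ ((range w ∪ (Ico w (w + N)).filter (fun n => ∀ i < μ, In (M * A ^ (i + 1)) n) : Finset ℕ) : Set ℕ) := by
    intro n hn
    rw [mem_coe, mem_union, mem_range, mem_filter, mem_Ico]
    by_cases hnw : n < w
    · exact Or.inl hnw
    · refine Or.inr ⟨⟨not_lt.1 hnw, ?_⟩, fun i hi => ?_⟩
      · have h1 : n ≤ ⌊x⌋₊ := Nat.le_floor hn.1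
        omega
      · have hA1 : 1 ≤ A := by exact_mod_cast hA0
        have h1 : M * A ^ (i + 1) ≤ K := Nat.mul_le_mul_left _ (Nat.pow_le_pow_right hA1 (by omega))
        refine hn.2 _ ?_ ?_ ?_
        · rw [hp1]
          refine hM1.trans ?_
          have h2 : M ≤ M * A ^ (i + 1) := Nat.le_mul_of_pos_right _ (Nat.pow_pos hA1)
          exact_mod_cast h2
        · rw [hp3]
          refine le_trans ?_ hKexp
          exact_mod_cast h1
        · have h2 : K ≤ K ^ 2 := Nat.le_self_pow two_ne_zero K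
          omega
  have hcard : ((NR x c m).ncard : ℝ) ≤ w + (((Ico w (w + N)).filter (fun n => ∀ i < μ, In (M * A ^ (i + 1)) n)).card : ℝ) := by
    have h1 := Set.ncard_le_ncard hsub (finite_toSet _)
    rw [Set.ncard_coe_finset] at h1
    have h2 := card_union_le (range w) ((Ico w (w + N)).filter (fun n => ∀ i < μ, In (M * A ^ (i + 1)) n))
    rw [card_range] at h2
    exact_mod_cast h1.trans h2
  have hexp := exp_parts hm ha100 hats
  have hbig : (N : ℝ) * (Real.exp (-(ts / 400 * μ)) + (2 * μ + 1) * Real.exp (-(μ : ℝ))) ≤ x * Real.exp (-(m : ℝ)) * (1 / 2) := by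
    calc (N : ℝ) * (Real.exp (-(ts / 400 * μ)) + (2 * μ + 1) * Real.exp (-(μ : ℝ)))
        ≤ (2 * x) * (Real.exp (-(m : ℝ)) * (1 / 4)) := by
          have hμ0 : (0 : ℝ) ≤ μ := Nat.cast_nonneg _
          gcongr
      _ = _ := by ring
  have hsmall : (w : ℝ) ≤ x * Real.exp (-(m : ℝ)) * (1 / 2) := by
    have h1 : Real.exp (-1) ≤ 1 / 2 := by
      have := Real.exp_neg_one_lt_d9
      linarith
    have h2 : (m : ℝ) ≤ X / 4 := by
      refine hmR.trans (hcX.trans ?_)
      linarith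
    calc (w : ℝ) ≤ Real.exp (X / 2) := hwx
      _ ≤ Real.exp (X + -(m : ℝ) + -1) := Real.exp_le_exp.2 (by linarith)
      _ = x * Real.exp (-(m : ℝ)) * Real.exp (-1) := by rw [Real.exp_add, Real.exp_add, ← hxX]
      _ ≤ _ := by gcongr
  linarith

end LCD
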