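import Pool.Agent.LCB.Drf

/-!
# LCD, part A: moments of the sums over primes
-/

set_option autoImplicit false

namespace LCD

open Finset Function ArithmeticFunction LCB

/-- The moment generating function of a sum of independent odd bounded functions. -/
theorem mgf_sumv {S : Finset ℕ} {Q : ℕ} (hQ : 0 < Q) (hS : ∀ p ∈ S, p.Prime) (hSQ : ∀ p ∈ S, p ∣ Q) {f : ℕ → ℕ → ℝ} {c : ℕ → ℝ}
    (hper : ∀ p ∈ S, Periodic (f p) p) (hodd : ∀ p ∈ S, ∀ n < Q, f p (Q - 1 - n) = - f p n)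
    (hb : ∀ p ∈ S, ∀ n, |f p n| ≤ c p) (θ : ℝ) :
    av Q (fun n => Real.exp (θ * ∑ p ∈ S, f p n)) ≤ Real.exp (θ ^ 2 * (∑ p ∈ S, c p ^ 2) / 2) := by
  have e1 : ∀ n, Real.exp (θ * ∑ p ∈ S, f p n) = ∏ p ∈ S, Real.exp (θ * f p n) := by
    intro n
    rw [mul_sum, Real.exp_sum]
  simp only [e1]
  rw [av_prod' (q := fun p => p) hQ (fun p hp => per_comp (hper p hp) (fun x => Real.exp (θ * x))) hSQ
    (fun p hp q hq hpq => (Nat.coprime_primes (hS p hp) (hS q hq)).2 hpq)]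
  have e2 : Real.exp (θ ^ 2 * (∑ p ∈ S, c p ^ 2) / 2) = ∏ p ∈ S, Real.exp (θ ^ 2 * c p ^ 2 / 2) := by
    rw [← Real.exp_sum, mul_sum, sum_div]
  rw [e2]
  refine prod_le_prod (fun p _ => av_nonneg Q fun n => (Real.exp_pos _).le) fun p hp => ?_
  have h := mgf_sum (S := {p}) hQ (fun q hq => by rw [mem_singleton] at hq; rw [hq]; exact hS p hp)
    (fun q hq => by rw [mem_singleton] at hq; rw [hq]; exact hSQ p hp) (f := fun _ => f p) (c := c p)
    (fun q hq => by rw [mem_singleton] at hq; rw [hq]; exact hper p hp) (fun _ _ => hodd p hp) (fun _ _ => hb p hp) θ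
  simp only [sum_singleton, card_singleton, Nat.cast_one, one_mul] at h
  exact h

/-- The sum over a set of primes. -/
noncomputable def Uf (S : Finset ℕ) (k n : ℕ) : ℝ := ∑ p ∈ S, Real.log p * X p k n

/-- The variance proxy. -/
noncomputable def vS (S : Finset ℕ) : ℝ := ∑ p ∈ S, Real.log p ^ 2

section

variable {S : Finset ℕ} {Q : ℕ}

theorem Uf_odd (hSQ : ∀ p ∈ S, p ∣ Q) (k : ℕ) {n : ℕ} (hn : n < Q) : Uf S k (Q - 1 - n) = - Uf S k n := by
  unfold Uf
  rw [← sum_neg_distrib]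
  refine sum_congr rfl fun p hp => ?_
  rw [X_odd k (hSQ p hp) hn]
  ring

theorem Uf_mgf (hQ : 0 < Q) (hS : ∀ p ∈ S, p.Prime) (hSQ : ∀ p ∈ S, p ∣ Q) (k : ℕ) (θ : ℝ) :
    av Q (fun n => Real.exp (θ * Uf S k n)) ≤ Real.exp (θ ^ 2 * vS S / 2) := by
  refine mgf_sumv (f := fun p n => Real.log p * X p k n) (c := fun p => Real.log p) hQ hS hSQ
    (fun p _ => per_comp (X_per p k) (fun x => Real.log p * x)) (fun p hp n hn => ?_) (fun p hp n => ?_) θ
  · rw [X_odd k (hSQ p hp) hn]; ring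
  · have h5 : 0 ≤ Real.log p := Real.log_nonneg (by exact_mod_cast (hS p hp).one_lt.le)
    rw [abs_mul, abs_of_nonneg h5]
    have := X_abs_le p k n
    nlinarith

theorem X_sq_ge (p k n : ℕ) (hp : 0 < p) : ps p n * X p k n ≤ X p k n * X p k n := by
  have h1 := ps_abs_le hp n
  have h2 : |X p k n| = X p k n * X p k n := by
    unfold X
    split_ifs <;> norm_num
  calc ps p n * X p k n ≤ |ps p n * X p k n| := le_abs_self _
    _ = |ps p n| * |X p k n| := abs_mul _ _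
    _ ≤ 1 * |X p k n| := by gcongr
    _ = _ := by rw [one_mul, h2]

theorem Uf_sq (hQ : 0 < Q) (hS : ∀ p ∈ S, p.Prime) (hSQ : ∀ p ∈ S, p ∣ Q) (k : ℕ) :
    ∑ p ∈ S, Real.log p ^ 2 * (2 * tt k p) ≤ av Q (fun n => Uf S k n ^ 2) := by
  have e : ∀ n, Uf S k n ^ 2 = ∑ p ∈ S, ∑ q ∈ S, (Real.log p * Real.log q) * (X p k n * X q k n) := by
    intro n
    unfold Uf
    rw [sq, sum_mul_sum]
    refine sum_congr rfl fun p _ => sum_congr rfl fun q _ => ?_
    ring
  simp only [e]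
  rw [av_sum]
  refine sum_le_sum fun p hp => ?_
  rw [av_sum, sum_eq_single p]
  · rw [av_mul_left, sq]
    have h1 : 2 * tt k p ≤ av Q (fun n => X p k n * X p k n) := by
      rw [av_of_dvd (per_mul (X_per p k) (X_per p k)) (hSQ p hp) hQ, ← av_ps_X (hS p hp).pos]
      exact av_mono p fun n => X_sq_ge p k n (hS p hp).pos
    have h2 : 0 ≤ Real.log p * Real.log p := mul_self_nonneg _
    exact mul_le_mul_of_nonneg_left h1 h2
  · intro q hq hqp
    rw [av_mul_left]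
    have hc : Nat.Coprime p q := (Nat.coprime_primes (hS p hp) (hS q hq)).2 (Ne.symm hqp)
    have hd : p * q ∣ Q := hc.mul_dvd_of_dvd_of_dvd (hSQ p hp) (hSQ q hq)
    have hper : Periodic (fun n => X p k n * X q k n) (p * q) :=
      per_mul (per_of_dvd (X_per p k) (Dvd.intro _ rfl)) (per_of_dvd (X_per q k) (Dvd.intro_left _ rfl))
    rw [av_of_dvd hper hd hQ, av_indep (X_per p k) (X_per q k) hc (hS p hp).pos (hS q hq).pos,
      av_odd (f := X p k) (fun m hm => X_odd k (dvd_refl p) hm), zero_mul, mul_zero]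
  · intro h
    exact absurd hp h

/-- The fourth moment. -/
theorem Uf_four (hQ : 0 < Q) (hS : ∀ p ∈ S, p.Prime) (hSQ : ∀ p ∈ S, p ∣ Q) (k : ℕ) {s : ℝ} (hs : 0 < s)
    (hv : vS S ≤ s ^ 2) : av Q (fun n => (Uf S k n / s) ^ 4) ≤ 80 := by
  have h1 : av Q (fun n => (Uf S k n / s) ^ 4) ≤
      av Q (fun n => 24 * (Real.exp (s⁻¹ * Uf S k n) + Real.exp ((-s⁻¹) * Uf S k n))) := by
    refine av_mono Q fun n => ?_
    have h := pow_le_fact_exp (s⁻¹ * Uf S k n) (n := 4) (by decide)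
    have h3 : (Nat.factorial 4 : ℝ) = 24 := by norm_num [Nat.factorial]
    rw [h3, ← neg_mul] at h
    rw [div_eq_inv_mul]
    exact h
  rw [av_mul_left, av_add] at h1
  have h2 := Uf_mgf hQ hS hSQ k s⁻¹
  have h3 := Uf_mgf hQ hS hSQ k (-s⁻¹)
  rw [neg_sq] at h3
  have h4 : s⁻¹ ^ 2 * vS S / 2 ≤ 1 / 2 := by
    have : s⁻¹ ^ 2 * vS S ≤ 1 := by
      rw [inv_pow, inv_mul_le_iff₀ (by positivity), mul_one]
      exact hv
    linarith
  have h5 : Real.exp (s⁻¹ ^ 2 * vS S / 2) ≤ Real.exp (1 / 2) := Real.exp_le_exp.2 h4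
  have h6 : Real.exp (1 / 2) ≤ 5 / 3 := by
    have h3 : Real.exp (1 / 2) ^ 2 = Real.exp 1 := by
      rw [← Real.exp_nat_mul]; norm_num
    have h4 := Real.exp_one_lt_d9
    have h5 := Real.exp_pos (1 / 2)
    by_contra hcon
    push Not at hcon
    nlinarith
  linarith

/-- High moments. -/
theorem Uf_mom (hQ : 0 < Q) (hS : ∀ p ∈ S, p.Prime) (hSQ : ∀ p ∈ S, p ∣ Q) (k : ℕ) {lam D V : ℝ} {R : ℕ}
    (hlam : 0 < lam) (hR : Even R) (hR1 : 1 ≤ R) (hD : Real.exp 1 * R ≤ lam * D) (hV : lam ^ 2 * vS S / 2 ≤ V) :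
    av Q (fun n => (Uf S k n / D) ^ R) ≤ 2 * Real.exp (V - R) := by
  have hR0 : (0 : ℝ) < R := by exact_mod_cast hR1
  have hlD : 0 < lam * D := lt_of_lt_of_le (mul_pos (Real.exp_pos 1) hR0) hD
  have hD0 : 0 < D := (pos_iff_pos_of_mul_pos hlD).1 hlam
  have m1 := (Uf_mgf hQ hS hSQ k lam).trans (Real.exp_le_exp.2 hV)
  have m2 := Uf_mgf hQ hS hSQ k (-lam)
  rw [neg_sq] at m2
  have m3 := m2.trans (Real.exp_le_exp.2 hV)
  have hc : (R.factorial : ℝ) / (lam * D) ^ R ≤ Real.exp (-(R : ℝ)) := by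
    rw [div_le_iff₀ (pow_pos hlD R)]
    have h2 : (R.factorial : ℝ) ≤ (R : ℝ) ^ R := by exact_mod_cast Nat.factorial_le_pow R
    have h3 : (Real.exp 1 * R) ^ R ≤ (lam * D) ^ R := pow_le_pow_left₀ (by positivity) hD R
    have h4 : (Real.exp 1 * (R : ℝ)) ^ R = Real.exp R * (R : ℝ) ^ R := by
      rw [mul_pow, ← Real.exp_nat_mul, mul_one]
    rw [h4] at h3
    calc (R.factorial : ℝ) ≤ (R : ℝ) ^ R := h2
      _ = Real.exp (-(R : ℝ)) * (Real.exp R * (R : ℝ) ^ R) := by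
          rw [← mul_assoc, ← Real.exp_add, neg_add_cancel, Real.exp_zero, one_mul]
      _ ≤ _ := by gcongr
  have hc0 : 0 ≤ (R.factorial : ℝ) / (lam * D) ^ R := by positivity
  calc av Q (fun n => (Uf S k n / D) ^ R)
      ≤ av Q (fun n => ((R.factorial : ℝ) / (lam * D) ^ R) *
          (Real.exp (lam * Uf S k n) + Real.exp (-lam * Uf S k n))) := by
        refine av_mono Q fun n => ?_
        have h := pow_le_fact_exp (lam * Uf S k n) hR
        have e : (Uf S k n / D) ^ R = (lam * Uf S k n) ^ R / (lam * D) ^ R := by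
          rw [← div_pow]
          congr 1
          field_simp
        rw [e, neg_mul, div_mul_eq_mul_div]
        exact div_le_div_of_nonneg_right h (pow_pos hlD R).le
    _ = ((R.factorial : ℝ) / (lam * D) ^ R) * (av Q (fun n => Real.exp (lam * Uf S k n)) +
          av Q (fun n => Real.exp (-lam * Uf S k n))) := by rw [av_mul_left, av_add]
    _ ≤ Real.exp (-(R : ℝ)) * (Real.exp V + Real.exp V) := by
        have p1 : 0 ≤ av Q (fun n => Real.exp (lam * Uf S k n)) := av_nonneg Q fun n => (Real.exp_pos _).le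
        have p2 : 0 ≤ av Q (fun n => Real.exp (-lam * Uf S k n)) := av_nonneg Q fun n => (Real.exp_pos _).le
        gcongr
    _ = 2 * Real.exp (V - R) := by
        rw [sub_eq_add_neg, Real.exp_add]; ring

end

/-- The shift. -/
noncomputable def dl : ℝ := 1 / 2000
/-- The fourth order coefficient. -/
noncomputable def BB : ℝ := 32000
/-- The size of the perturbation. -/
noncomputable def ts : ℝ := 1 / (100 * BB ^ 3)

/-- The majorant of the indicator of `[- dl, ∞)`, in terms of `w = u + dl`. -/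
noncomputable def Fm (w : ℝ) : ℝ := 1 + ts * (w * (1 - w) ^ 2) + ts / BB * w ^ 4

theorem ts_pos : 0 < ts := by unfold ts BB; norm_num

theorem Fm_ge_one {w : ℝ} (hw : 0 ≤ w) : 1 ≤ Fm w := by
  unfold Fm
  have h1 := ts_pos
  have h2 : 0 < BB := by unfold BB; norm_num
  have h3 : 0 ≤ ts * (w * (1 - w) ^ 2) := by positivity
  have h4 : 0 ≤ ts / BB * w ^ 4 := by positivity
  linarith

theorem Fm_nonneg (w : ℝ) : 0 ≤ Fm w := by
  rcases le_or_gt 0 w with hw | hw
  · exact zero_le_one.trans (Fm_ge_one hw)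
  · obtain ⟨W, hW, rfl⟩ : ∃ W, 0 < W ∧ w = -W := ⟨-w, by linarith, by ring⟩
    have h1 := ts_pos
    have hB : BB = 32000 := rfl
    have h2 : 0 < BB := by rw [hB]; norm_num
    have e : Fm (-W) = 1 - ts * (W * (1 + W) ^ 2) + ts / BB * W ^ 4 := by
      unfold Fm; ring
    rw [e]
    rcases le_or_gt W (4 * BB) with h | h
    · have h3 : W * (1 + W) ^ 2 ≤ 100 * BB ^ 3 := by
        have h4 : 1 + W ≤ 5 * BB := by rw [hB] at h ⊢; linarith
        calc W * (1 + W) ^ 2 ≤ (4 * BB) * (5 * BB) ^ 2 := by gcongr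
          _ = 100 * BB ^ 3 := by ring
      have h5 : ts * (W * (1 + W) ^ 2) ≤ 1 := by
        unfold ts
        rw [div_mul_eq_mul_div, one_mul, div_le_one (by positivity)]
        exact h3
      have h6 : 0 ≤ ts / BB * W ^ 4 := by positivity
      linarith
    · have h3 : W * (1 + W) ^ 2 ≤ W ^ 4 / BB := by
        rw [le_div_iff₀ h2]
        have h4 : 1 + W ≤ 2 * W := by rw [hB] at h; linarith
        calc W * (1 + W) ^ 2 * BB ≤ W * (2 * W) ^ 2 * BB := by gcongr
          _ = W ^ 3 * (4 * BB) := by ring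
          _ ≤ W ^ 3 * W := by gcongr
          _ = W ^ 4 := by ring
      have h5 : ts * (W * (1 + W) ^ 2) ≤ ts / BB * W ^ 4 := by
        calc ts * (W * (1 + W) ^ 2) ≤ ts * (W ^ 4 / BB) := by gcongr
          _ = _ := by ring
      linarith

/-- The mean of the majorant. -/
theorem av_Fm {Q : ℕ} (hQ : 0 < Q) {f : ℕ → ℝ} (hodd : ∀ m < Q, f (Q - 1 - m) = - f m)
    (h2 : 1 / 200 ≤ av Q (fun n => f n ^ 2)) (h4 : av Q (fun n => f n ^ 4) ≤ 80) :
    av Q (fun n => Fm (f n + dl)) ≤ 1 - ts / 400 := by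
  have h1 : av Q f = 0 := av_odd hodd
  have h3 : av Q (fun n => f n ^ 3) = 0 := by
    refine av_odd fun m hm => ?_
    rw [hodd m hm]
    ring
  set q := av Q (fun n => f n ^ 2) with hq
  have hq41 : q ≤ 41 := by
    have h5 : q ≤ av Q (fun n => (1 / 2) * (1 + f n ^ 4)) := by
      refine av_mono Q fun n => ?_
      nlinarith [sq_nonneg (f n ^ 2 - 1)]
    rw [av_mul_left, av_add, av_const hQ] at h5
    linarith
  have e : ∀ n, Fm (f n + dl) = (1 + ts * (dl * (1 - dl) ^ 2) + ts / BB * dl ^ 4) +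
      (((ts * (1 - 4 * dl + 3 * dl ^ 2) + ts / BB * (4 * dl ^ 3)) * f n +
        (ts * (-2 + 3 * dl) + ts / BB * (6 * dl ^ 2)) * f n ^ 2) +
        ((ts + ts / BB * (4 * dl)) * f n ^ 3 + ts / BB * f n ^ 4)) := by
    intro n
    unfold Fm
    ring
  simp only [e]
  rw [av_add, av_const hQ, av_add, av_add, av_add, av_mul_left, av_mul_left, av_mul_left, av_mul_left, h1, h3, ← hq]
  have hts := ts_pos
  have hB : BB = 32000 := rfl
  have hd : dl = 1 / 2000 := rfl
  rw [hB, hd]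
  set t := ts with ht
  have h6 : t / 32000 * av Q (fun n => f n ^ 4) ≤ t / 32000 * 80 := by gcongr
  have h7 : t * (1 / 200) ≤ t * q := by gcongr
  have h8 : t * q ≤ t * 41 := by gcongr
  have h9 : (t * (-2 + 3 * (1 / 2000)) + t / 32000 * (6 * (1 / 2000) ^ 2)) * q ≤ -(19 / 10) * (t * q) := by
    have h0 : 0 ≤ t * q := by linarith [mul_pos hts (show (0:ℝ) < 1 / 200 by norm_num)]
    have e9 : (t * (-2 + 3 * (1 / 2000)) + t / 32000 * (6 * (1 / 2000) ^ 2)) * q =
        (-2 + 3 * (1 / 2000) + 6 * (1 / 2000) ^ 2 / 32000) * (t * q) := by ring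
    rw [e9]
    apply mul_le_mul_of_nonneg_right _ h0
    norm_num
  nlinarith

end LCD
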