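import Pool.Agent.LCD.Mom

/-!
# LCD, part B: one scale
-/

set_option autoImplicit false

namespace LCD

open Finset Function ArithmeticFunction Filter Topology LCB

theorem vS_pr_le {z k l : ℕ} (hkl : k ≤ l) (hk : 1 ≤ k) : vS (pr z k) ≤ 2 * (k : ℝ) * Real.log l := by
  have h1 : ∑ p ∈ pr z k, Real.log p ≤ Chebyshev.theta (k : ℝ) := by
    unfold Chebyshev.theta pr
    rw [Nat.floor_natCast]
    refine sum_le_sum_of_subset_of_nonneg (filter_subset_filter _ (Ioc_subset_Ioc_left (Nat.zero_le z))) ?_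
    intro p hp _
    rw [mem_filter] at hp
    exact Real.log_nonneg (by exact_mod_cast hp.2.one_lt.le)
  have h2 : Chebyshev.theta (k : ℝ) ≤ Real.log 4 * k := Chebyshev.theta_le_log4_mul_x (Nat.cast_nonneg k)
  have h3 : Real.log 4 ≤ 2 := by
    rw [show (4 : ℝ) = 2 ^ 2 by norm_num, Real.log_pow]
    have := Real.log_two_lt_d9
    push_cast
    linarith
  have hkr : (1 : ℝ) ≤ k := by exact_mod_cast hk
  have hlr : (k : ℝ) ≤ l := by exact_mod_cast hkl
  have hl : 0 ≤ Real.log l := Real.log_nonneg (by linarith)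
  unfold vS
  calc ∑ p ∈ pr z k, Real.log p ^ 2 ≤ ∑ p ∈ pr z k, Real.log l * Real.log p := by
        refine sum_le_sum fun p hp => ?_
        have hp' := mem_pr.1 hp
        have h4 : 0 ≤ Real.log p := Real.log_nonneg (by exact_mod_cast hp'.2.one_lt.le)
        have h5 : Real.log p ≤ Real.log l := Real.log_le_log (by exact_mod_cast hp'.2.pos) (by exact_mod_cast hp'.1.2.trans hkl)
        nlinarith
    _ = Real.log l * ∑ p ∈ pr z k, Real.log p := by rw [mul_sum]
    _ ≤ Real.log l * (2 * k) := by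
        refine mul_le_mul_of_nonneg_left ?_ hl
        nlinarith
    _ = _ := by ring

/-- The normalisation at scale `k`. -/
noncomputable def sK (k : ℕ) : ℝ := √(2 * (k : ℝ) * Real.log k)

/-- The normalised sum over the large primes. -/
noncomputable def uu (z k n : ℕ) : ℝ := Uf (pr z k) k n / sK k

theorem log_fact_up (m k : ℕ) : Real.log ((m + k).factorial : ℝ) ≤ Real.log (m.factorial : ℝ) + k * Real.log ((m : ℝ) + k) := by
  induction k with
  | zero => simp
  | succ k ih =>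
    have h1 : ((m + (k + 1)).factorial : ℝ) = ((m : ℝ) + (k + 1 : ℕ)) * ((m + k).factorial : ℝ) := by
      have : m + (k + 1) = (m + k) + 1 := by omega
      rw [this, Nat.factorial_succ]
      push_cast
      ring
    rcases Nat.eq_zero_or_pos (m + k) with h0 | h0
    · have hm : m = 0 := by omega
      have hk : k = 0 := by omega
      subst hm hk
      simp
    · have h2 : (0 : ℝ) < (m : ℝ) + k := by exact_mod_cast h0
      rw [h1, Real.log_mul (by positivity) (by positivity)]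
      have h3 : Real.log ((m : ℝ) + k) ≤ Real.log ((m : ℝ) + (k + 1 : ℕ)) := Real.log_le_log h2 (by push_cast; linarith)
      have h4 : (k : ℝ) * Real.log ((m : ℝ) + k) ≤ k * Real.log ((m : ℝ) + (k + 1 : ℕ)) := by gcongr
      push_cast at h3 h4 ⊢
      linarith

theorem log_fact_lo (m k : ℕ) : Real.log (m.factorial : ℝ) + k * Real.log ((m : ℝ) + 1) ≤ Real.log ((m + k).factorial : ℝ) := by
  have h1 : m.factorial * (m + 1) ^ k ≤ (m + k).factorial := Nat.factorial_mul_pow_le_factorial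
  have h2 : (m.factorial : ℝ) * ((m : ℝ) + 1) ^ k ≤ ((m + k).factorial : ℝ) := by exact_mod_cast h1
  have h3 := Real.log_le_log (by positivity) h2
  rw [Real.log_mul (by positivity) (by positivity), Real.log_pow] at h3
  exact h3

/-- The contribution of the factorials is small. -/
theorem fact_small {k n : ℕ} (hn : 2 * k ^ 2 + k ≤ n) :
    Real.log ((n + k).factorial : ℝ) + Real.log ((n - k).factorial : ℝ) - 2 * Real.log (n.factorial : ℝ) ≤ 1 := by
  obtain ⟨m, rfl⟩ : ∃ m, n = m + k := ⟨n - k, by omega⟩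
  have e : m + k - k = m := by omega
  rw [e]
  have h1 := log_fact_up (m + k) k
  have h2 := log_fact_lo m k
  have hm : (2 : ℝ) * (k : ℝ) ^ 2 ≤ m := by exact_mod_cast (by omega : 2 * k ^ 2 ≤ m)
  have hm0 : (0 : ℝ) < (m : ℝ) + 1 := by positivity
  have h3 : Real.log ((m : ℝ) + k + k) - Real.log ((m : ℝ) + 1) ≤ (2 * k : ℝ) / (m + 1) := by
    rcases Nat.eq_zero_or_pos (m + k) with h0 | h0
    · have hm : m = 0 := by omega
      have hk : k = 0 := by omega
      subst hm hk
      simp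
    · have h4 : (0 : ℝ) < (m : ℝ) + k := by exact_mod_cast h0
      have hk0 : (0 : ℝ) ≤ k := Nat.cast_nonneg k
      rw [← Real.log_div (by positivity) (by positivity)]
      refine (Real.log_le_sub_one_of_pos (by positivity)).trans ?_
      rw [div_sub_one (by positivity)]
      gcongr
      linarith
  have h5 : (k : ℝ) * (Real.log ((m : ℝ) + k + k) - Real.log ((m : ℝ) + 1)) ≤ 1 := by
    calc (k : ℝ) * (Real.log ((m : ℝ) + k + k) - Real.log ((m : ℝ) + 1)) ≤ k * ((2 * k : ℝ) / (m + 1)) := by gcongr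
      _ ≤ 1 := by
          rw [← mul_div_assoc, div_le_one hm0]
          nlinarith
  push_cast at h1
  nlinarith

/-- Necessary condition for the inequality at `k`. -/
theorem nec {z k n : ℕ} (hzk : z ≤ k) (hk1 : 1 ≤ k) (hn : 2 * k ^ 2 + k ≤ n)
    (h : (Icc (n - k + 1) n).lcm id ≤ (Icc (n + 1) (n + k)).lcm id) :
    -(1 + (Chebyshev.psi (k : ℝ) - Chebyshev.theta (k : ℝ))) ≤ Uf (pr 0 z) k n + Uf (pr z k) k n := by
  have hkn : k ≤ n := by omega
  have h1 := block_identity hk1 hkn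
  have h2 := fact_small hn
  have hpos : (0 : ℝ) < (((Icc (n - k + 1) n).lcm id : ℕ) : ℝ) := by
    have : (Icc (n - k + 1) n).lcm id ≠ 0 := by
      rw [Ne, Finset.lcm_eq_zero_iff]
      rintro ⟨y, hy, hy0⟩
      rw [mem_Icc] at hy
      simp only [id] at hy0
      omega
    exact_mod_cast Nat.pos_of_ne_zero this
  have h3 : Real.log (((Icc (n - k + 1) n).lcm id : ℕ) : ℝ) ≤ Real.log (((Icc (n + 1) (n + k)).lcm id : ℕ) : ℝ) :=
    Real.log_le_log hpos (by exact_mod_cast h)
  have e0 : Icc 1 k = Ioc 0 k := by ext d; simp only [mem_Icc, mem_Ioc]; omega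
  have h4 : ∑ d ∈ Icc 1 k, Λ d * X d k n = ∑ d ∈ (Ioc 0 k).filter Nat.Prime, Λ d * X d k n +
      ∑ d ∈ (Ioc 0 k).filter (fun d => ¬ d.Prime), Λ d * X d k n := by
    rw [e0, sum_filter_add_sum_filter_not]
  have h5 : ∑ d ∈ (Ioc 0 k).filter (fun d => ¬ d.Prime), Λ d * X d k n ≤
      Chebyshev.psi (k : ℝ) - Chebyshev.theta (k : ℝ) := by
    rw [Chebyshev.psi_sub_theta_eq_sum_not_prime, Nat.floor_natCast]
    refine sum_le_sum fun d _ => ?_
    have a1 := (abs_le.1 (X_abs_le d k n)).2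
    have a2 := vonMangoldt_nonneg (n := d)
    nlinarith
  have h6 : ∑ d ∈ (Ioc 0 k).filter Nat.Prime, Λ d * X d k n = Uf (pr 0 z) k n + Uf (pr z k) k n := by
    unfold Uf
    have e1 : (Ioc 0 k).filter Nat.Prime = pr 0 z ∪ pr z k := by
      ext d
      rw [mem_union, mem_pr, mem_pr, mem_filter, mem_Ioc]
      constructor
      · rintro ⟨h4, h5⟩
        rcases le_or_gt d z with h6 | h6
        · exact Or.inl ⟨⟨h4.1, h6⟩, h5⟩
        · exact Or.inr ⟨⟨h6, h4.2⟩, h5⟩
      · rintro (⟨h4, h5⟩ | ⟨h4, h5⟩)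
        · exact ⟨⟨h4.1, h4.2.trans hzk⟩, h5⟩
        · exact ⟨⟨h5.pos, h4.2⟩, h5⟩
    have hdis : Disjoint (pr 0 z) (pr z k) := by
      rw [disjoint_left]
      intro d h1 h2
      rw [mem_pr] at h1 h2
      omega
    rw [e1, sum_union hdis]
    congr 1
    · exact sum_congr rfl fun p hp => by rw [vonMangoldt_apply_prime (mem_pr.1 hp).2]
    · exact sum_congr rfl fun p hp => by rw [vonMangoldt_apply_prime (mem_pr.1 hp).2]
  linarith

/-- One scale. -/
theorem scale : ∃ k0 : ℕ, 2 ≤ k0 ∧ ∀ z k : ℕ, k0 ≤ k → 100 * z ≤ k → k ≤ z ^ 2 →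
    2 ≤ dl * sK k ∧
    (∀ Q : ℕ, 0 < Q → (∀ p ∈ pr 0 k, p ∣ Q) → av Q (fun n => Fm (uu z k n + dl)) ≤ 1 - ts / 400) ∧
    (∀ n : ℕ, 2 * k ^ 2 + k ≤ n → (Icc (n - k + 1) n).lcm id ≤ (Icc (n + 1) (n + k)).lcm id →
      |Uf (pr 0 z) k n| ≤ dl * sK k / 2 → 0 ≤ uu z k n + dl) := by
  obtain ⟨C, hC⟩ := Chebyshev.psi_sub_theta_le_mul_sqrt
  have hC0 : 0 ≤ C := by
    have h1 := hC 1
    rw [Real.sqrt_one, mul_one] at h1
    have h2 := Chebyshev.theta_le_psi 1
    linarith
  have hdl : dl = 1 / 2000 := rfl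
  have ev1 : ∀ᶠ k : ℕ in atTop, C * √(k : ℝ) ≤ (1 / 50) * k := by
    have h1 : ∀ᶠ k : ℕ in atTop, ((50 * C) ^ 2 : ℝ) ≤ k := tendsto_natCast_atTop_atTop.eventually_ge_atTop _
    filter_upwards [h1] with k hk
    have h2 : 50 * C ≤ √(k : ℝ) := Real.le_sqrt_of_sq_le hk
    have h3 : √(k : ℝ) * √(k : ℝ) = k := Real.mul_self_sqrt (Nat.cast_nonneg k)
    have h4 := Real.sqrt_nonneg (k : ℝ)
    nlinarith
  have ev2 : ∀ᶠ k : ℕ in atTop, (4000 * (1 + C)) ^ 2 ≤ Real.log (k : ℝ) :=
    (Real.tendsto_log_atTop.comp tendsto_natCast_atTop_atTop).eventually_ge_atTop _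
  obtain ⟨k1, hk1⟩ := eventually_atTop.1 (ev1.and (ev2.and drift_ev))
  refine ⟨max k1 2, le_max_right _ _, fun z k hk hz hkz => ?_⟩
  obtain ⟨E1, E2, E3⟩ := hk1 k ((le_max_left _ _).trans hk)
  have hk2 : 2 ≤ k := (le_max_right _ _).trans hk
  have hkr : (2 : ℝ) ≤ k := by exact_mod_cast hk2
  have hsk1 : 1 ≤ √(k : ℝ) := Real.one_le_sqrt.2 (by linarith)
  have hlog1 : 1 ≤ Real.log (k : ℝ) := by
    refine le_trans ?_ E2
    nlinarith
  have hs2 : sK k ^ 2 = 2 * (k : ℝ) * Real.log k := Real.sq_sqrt (by positivity)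
  have hsbig : 4000 * (1 + C) * √(k : ℝ) ≤ sK k := by
    unfold sK
    apply Real.le_sqrt_of_sq_le
    rw [mul_pow, Real.sq_sqrt (by linarith)]
    nlinarith
  have hs0 : 0 < sK k := by
    have : 0 < 4000 * (1 + C) * √(k : ℝ) := by positivity
    linarith
  have hzk : z ≤ k := by omega
  refine ⟨?_, ?_, ?_⟩
  · rw [hdl]
    nlinarith
  · intro Q hQ hQd
    have hQd' : ∀ p ∈ pr z k, p ∣ Q := fun p hp => hQd p (by
      rw [mem_pr] at hp ⊢
      exact ⟨⟨hp.2.pos, hp.1.2⟩, hp.2⟩)
    have hpp : ∀ p ∈ pr z k, p.Prime := fun p hp => (mem_pr.1 hp).2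
    refine av_Fm hQ (fun m hm => ?_) ?_ ?_
    · unfold uu
      rw [Uf_odd hQd' k hm]
      ring
    · have h1 := Uf_sq hQ hpp hQd' k
      have h2 : av Q (fun n => uu z k n ^ 2) = av Q (fun n => Uf (pr z k) k n ^ 2) / sK k ^ 2 := by
        unfold uu
        simp only [div_pow]
        simp only [div_eq_mul_inv]
        rw [av_mul_right]
      rw [h2, hs2, le_div_iff₀ (by positivity)]
      refine le_trans ?_ h1
      have h3 := sum_tt_ge (y := z) (k := k) hzk
      have h4 : Chebyshev.theta (z : ℝ) ≤ Real.log 4 * z := Chebyshev.theta_le_log4_mul_x (Nat.cast_nonneg z)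
      have h5 : Real.log 4 ≤ 7 / 5 := by
        rw [show (4 : ℝ) = 2 ^ 2 by norm_num, Real.log_pow]
        have := Real.log_two_lt_d9
        push_cast
        linarith
      have h6 : (100 : ℝ) * z ≤ k := by exact_mod_cast hz
      have h7 : (0 : ℝ) ≤ z := Nat.cast_nonneg z
      have h8 := hC k
      have h9 : (1 / 100) * (k : ℝ) ≤ ∑ p ∈ pr z k, Real.log p * tt k p := by
        nlinarith
      have hz1 : 0 < z := by
        rcases Nat.eq_zero_or_pos z with h | h
        · rw [h] at hkz; omega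
        · exact h
      have hzr : (0 : ℝ) < z := by exact_mod_cast hz1
      have h10 : Real.log k ≤ 2 * Real.log z := by
        have h11 : (k : ℝ) ≤ (z : ℝ) ^ 2 := by exact_mod_cast hkz
        have h12 := Real.log_le_log (by linarith) h11
        rw [Real.log_pow] at h12
        exact_mod_cast h12
      calc 1 / 200 * (2 * (k : ℝ) * Real.log k) = Real.log k * ((1 / 100) * (k : ℝ)) := by ring
        _ ≤ Real.log k * ∑ p ∈ pr z k, Real.log p * tt k p := by gcongr
        _ = ∑ p ∈ pr z k, Real.log k * (Real.log p * tt k p) := by rw [mul_sum]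
        _ ≤ ∑ p ∈ pr z k, Real.log p ^ 2 * (2 * tt k p) := by
            refine sum_le_sum fun p hp => ?_
            have hp' := mem_pr.1 hp
            have h13 : Real.log z ≤ Real.log p := Real.log_le_log hzr (by exact_mod_cast hp'.1.1.le)
            have h14 : 0 ≤ Real.log p * tt k p :=
              mul_nonneg (Real.log_nonneg (by exact_mod_cast hp'.2.one_lt.le)) (tt_nonneg k p)
            have h15 : Real.log k ≤ 2 * Real.log p := by linarith
            calc Real.log k * (Real.log p * tt k p) ≤ (2 * Real.log p) * (Real.log p * tt k p) := by gcongr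
              _ = _ := by ring
    · unfold uu
      refine Uf_four hQ hpp hQd' k hs0 ?_
      rw [hs2]
      exact vS_pr_le (le_refl k) (by omega)
  · intro n hn hlt hR
    have h1 := nec hzk (by omega : 1 ≤ k) hn hlt
    have h2 := hC k
    have h3 := (abs_le.1 hR).2
    have h4 : -(dl * sK k) ≤ Uf (pr z k) k n := by
      have h5 : 1 + C * √(k : ℝ) ≤ dl * sK k / 2 := by
        rw [hdl]
        nlinarith
      linarith
    have h5 : -dl ≤ uu z k n := by
      unfold uu
      rw [le_div_iff₀ hs0]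
      linarith
    linarith

end LCD
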